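import Mathlib

/-!
# `r`-coloured `k`-enabling complete graphs: three colours

For every `k ≥ 3` there is a `3`-coloured `k`-enabling colouring of the complete graph on
`6 k - 7 = 2 · 3 (k - 1) - 1` vertices.  There are six blocks of `k - 2` vertices, two for each
colour, and five further vertices.  So `n₃(k) < 2 · 3 (k - 1)` for all `k ≥ 3`, and the answer to
Q1 is no.
-/

set_option autoImplicit false

namespace Pool.Agent.Results.MP_7ae2b6_co.ThreeColours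

/-- The edge colouring `c` of the complete graph on `V` (the colour of the edge between `a` and
`b` is `c s(a, b)`) is `r`-coloured `k`-enabling: every vertex `v` lies, for every colour `i`, in
a set `S` of exactly `k` vertices such that all edges inside `S` have colour `i`. -/
def IsEnabling {V : Type} (r k : ℕ) (c : Sym2 V → Fin r) : Prop :=
  ∀ (v : V) (i : Fin r), ∃ S : Finset V, S.card = k ∧ v ∈ S ∧
    ∀ a ∈ S, ∀ b ∈ S, a ≠ b → c s(a, b) = i

/-- The least `n ≥ 1` for which `K_n` has an `r`-coloured `k`-enabling colouring. -/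
noncomputable def nr (r k : ℕ) : ℕ :=
  sInf {n : ℕ | 1 ≤ n ∧ ∃ c : Sym2 (Fin n) → Fin r, IsEnabling r k c}

/-- The colours between the eleven kinds of vertices: `0, …, 5` are the blocks (two for each of
the three colours), `6, …, 10` are the further vertices. -/
def T : Fin 11 → Fin 11 → Fin 3 :=
  ![![0, 0, 0, 1, 2, 0, 0, 1, 2, 0, 0],
    ![0, 0, 1, 0, 0, 2, 1, 0, 0, 0, 2],
    ![0, 1, 1, 1, 1, 2, 1, 2, 1, 0, 1],
    ![1, 0, 1, 1, 2, 1, 2, 1, 0, 1, 1],
    ![2, 0, 1, 2, 2, 2, 2, 0, 2, 2, 1],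
    ![0, 2, 2, 1, 2, 2, 0, 2, 2, 1, 2],
    ![0, 1, 1, 2, 2, 0, 0, 0, 1, 2, 0],
    ![1, 0, 2, 1, 0, 2, 0, 0, 0, 0, 0],
    ![2, 0, 1, 0, 2, 2, 1, 0, 0, 0, 0],
    ![0, 0, 0, 1, 2, 1, 2, 0, 0, 0, 0],
    ![0, 2, 1, 1, 1, 2, 0, 0, 0, 0, 0]]

/-- For every kind of vertices and every colour a block and two further kinds. -/
def W : Fin 11 → Fin 3 → Fin 6 × Fin 11 × Fin 11 :=
  ![![(0, 1, 9), (3, 0, 7), (4, 0, 8)],
    ![(0, 1, 9), (2, 1, 6), (5, 1, 10)],
    ![(0, 2, 9), (2, 1, 6), (5, 2, 7)],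
    ![(1, 3, 8), (2, 3, 10), (4, 3, 6)],
    ![(1, 4, 7), (2, 4, 10), (4, 0, 8)],
    ![(0, 5, 6), (3, 5, 9), (4, 5, 8)],
    ![(0, 6, 5), (2, 6, 1), (4, 6, 3)],
    ![(1, 7, 4), (3, 7, 0), (5, 7, 2)],
    ![(1, 8, 3), (2, 8, 6), (4, 8, 0)],
    ![(0, 9, 1), (3, 9, 5), (4, 9, 6)],
    ![(0, 10, 6), (2, 10, 3), (5, 10, 1)]]

theorem T_symm : ∀ a b : Fin 11, T a b = T b a := by decide

theorem wit : ∀ (t : Fin 11) (i : Fin 3), ∃ (B : Fin 6) (x y : Fin 11),
    x ≠ y ∧ x ≠ Fin.castAdd 5 B ∧ y ≠ Fin.castAdd 5 B ∧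
    T (Fin.castAdd 5 B) (Fin.castAdd 5 B) = i ∧ T (Fin.castAdd 5 B) x = i ∧
    T (Fin.castAdd 5 B) y = i ∧ T x y = i ∧ (t = Fin.castAdd 5 B ∨ t = x) := by
  have h : ∀ (t : Fin 11) (i : Fin 3),
      (W t i).2.1 ≠ (W t i).2.2 ∧ (W t i).2.1 ≠ Fin.castAdd 5 (W t i).1 ∧
      (W t i).2.2 ≠ Fin.castAdd 5 (W t i).1 ∧
      T (Fin.castAdd 5 (W t i).1) (Fin.castAdd 5 (W t i).1) = i ∧
      T (Fin.castAdd 5 (W t i).1) (W t i).2.1 = i ∧
      T (Fin.castAdd 5 (W t i).1) (W t i).2.2 = i ∧ T (W t i).2.1 (W t i).2.2 = i ∧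
      (t = Fin.castAdd 5 (W t i).1 ∨ t = (W t i).2.1) := by decide
  intro t i
  exact ⟨_, _, _, h t i⟩

/-- The vertices: six blocks of `m` vertices and five further vertices. -/
abbrev Vx (m : ℕ) : Type := (Fin 6 × Fin m) ⊕ Fin 5

/-- The kind of a vertex. -/
def ty {m : ℕ} : Vx m → Fin 11
  | Sum.inl p => Fin.castAdd 5 p.1
  | Sum.inr h => Fin.natAdd 6 h

/-- The colouring. -/
def col (m : ℕ) : Sym2 (Vx m) → Fin 3 :=
  Sym2.lift ⟨fun a b => T (ty a) (ty b), fun _ _ => T_symm _ _⟩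

theorem col_mk {m : ℕ} (a b : Vx m) : col m s(a, b) = T (ty a) (ty b) := rfl

theorem ty_surj {m : ℕ} (hm : 1 ≤ m) (x : Fin 11) : ∃ v : Vx m, ty v = x := by
  induction x using Fin.addCases (m := 6) (n := 5) with
  | left i => exact ⟨Sum.inl (i, ⟨0, hm⟩), rfl⟩
  | right i => exact ⟨Sum.inr i, rfl⟩

theorem ty_block {m : ℕ} (v : Vx m) (B : Fin 6) (h : ty v = Fin.castAdd 5 B) :
    ∃ t : Fin m, v = Sum.inl (B, t) := by
  rcases v with ⟨b, t⟩ | h'
  · refine ⟨t, ?_⟩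
    have : b = B := by
      have h1 := congrArg Fin.val h
      simp only [ty, Fin.val_castAdd] at h1
      exact Fin.ext h1
    rw [this]
  · exfalso
    have h1 := congrArg Fin.val h
    simp only [ty, Fin.val_castAdd, Fin.val_natAdd] at h1
    have := B.isLt
    omega

theorem enabling_col (m : ℕ) (hm : 1 ≤ m) : IsEnabling 3 (m + 2) (col m) := by
  classical
  intro v i
  obtain ⟨B, x, y, hxy, hxB, hyB, h1, h2, h3, h4, h5⟩ := wit (ty v) i
  obtain ⟨vx, hvx, hvv⟩ : ∃ vx : Vx m, ty vx = x ∧ (ty v = x → vx = v) := by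
    by_cases h : ty v = x
    · exact ⟨v, h, fun _ => rfl⟩
    · obtain ⟨w, hw⟩ := ty_surj hm x
      exact ⟨w, hw, fun h' => absurd h' h⟩
  obtain ⟨vy, hvy⟩ := ty_surj hm y
  set blk : Finset (Vx m) := Finset.univ.image (fun t : Fin m => (Sum.inl (B, t) : Vx m)) with hblk
  have hty : ∀ a ∈ blk, ty a = Fin.castAdd 5 B := by
    intro a ha
    obtain ⟨t, -, rfl⟩ := Finset.mem_image.1 ha
    rfl
  have hcard : blk.card = m := by
    rw [hblk, Finset.card_image_of_injective]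
    · simp
    · intro s t hst
      simpa using hst
  have hy_notin : vy ∉ blk := fun h => hyB (hvy ▸ hty _ h)
  have hx_notin : vx ∉ insert vy blk := by
    intro h
    rcases Finset.mem_insert.1 h with h | h
    · exact hxy (by rw [← hvx, ← hvy, h])
    · exact hxB (hvx ▸ hty _ h)
  refine ⟨insert vx (insert vy blk), ?_, ?_, ?_⟩
  · rw [Finset.card_insert_of_notMem hx_notin, Finset.card_insert_of_notMem hy_notin, hcard]
  · rcases h5 with h5 | h5
    · obtain ⟨t, ht⟩ := ty_block v B h5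
      refine Finset.mem_insert_of_mem (Finset.mem_insert_of_mem ?_)
      rw [hblk, ht]
      exact Finset.mem_image_of_mem _ (Finset.mem_univ t)
    · rw [hvv h5]
      exact Finset.mem_insert_self _ _
  · intro a ha b hb hab
    rw [col_mk]
    rcases Finset.mem_insert.1 ha with rfl | ha1
    · rcases Finset.mem_insert.1 hb with rfl | hb1
      · exact absurd rfl hab
      rcases Finset.mem_insert.1 hb1 with rfl | hb2
      · rw [hvx, hvy, h4]
      · rw [hvx, hty _ hb2, T_symm, h2]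
    rcases Finset.mem_insert.1 ha1 with rfl | ha2
    · rcases Finset.mem_insert.1 hb with rfl | hb1
      · rw [hvx, hvy, T_symm, h4]
      rcases Finset.mem_insert.1 hb1 with rfl | hb2
      · exact absurd rfl hab
      · rw [hvy, hty _ hb2, T_symm, h3]
    · rcases Finset.mem_insert.1 hb with rfl | hb1
      · rw [hvx, hty _ ha2, h2]
      rcases Finset.mem_insert.1 hb1 with rfl | hb2
      · rw [hvy, hty _ ha2, h3]
      · rw [hty _ ha2, hty _ hb2, h1]

theorem enabling_equiv {V V' : Type} (e : V ≃ V') (r k : ℕ) (c : Sym2 V → Fin r)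
    (h : IsEnabling r k c) : IsEnabling r k (fun z : Sym2 V' => c (z.map e.symm)) := by
  classical
  intro v i
  obtain ⟨S, h1, h2, h3⟩ := h (e.symm v) i
  refine ⟨S.map e.toEmbedding, ?_, ?_, ?_⟩
  · rw [Finset.card_map, h1]
  · rw [Finset.mem_map]
    exact ⟨e.symm v, h2, by simp⟩
  · intro a ha b hb hab
    obtain ⟨a', ha', rfl⟩ := Finset.mem_map.1 ha
    obtain ⟨b', hb', rfl⟩ := Finset.mem_map.1 hb
    have := h3 a' ha' b' hb' (fun h => hab (by rw [h]))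
    simpa using this

theorem exists_colouring (k : ℕ) (hk : 3 ≤ k) :
    ∃ c : Sym2 (Fin (6 * k - 7)) → Fin 3, IsEnabling 3 k c := by
  obtain ⟨m, rfl⟩ : ∃ m, k = m + 2 := ⟨k - 2, by omega⟩
  have hcard : Fintype.card (Vx m) = 6 * (m + 2) - 7 := by
    simp only [Fintype.card_sum, Fintype.card_prod, Fintype.card_fin]
    omega
  exact ⟨_, enabling_equiv (Fintype.equivFinOfCardEq hcard) 3 (m + 2) (col m)
    (enabling_col m (by omega))⟩

/-- The answer to Q1 is no: for every `k ≥ 3` the complete graph on `6 k - 7` vertices has a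
`3`-coloured `k`-enabling colouring, so `n₃(k) ≤ 6 k - 7 < 2 · 3 (k - 1)`, and it is not the case
that for every `r ≥ 2` one has `n_r(k) = 2 r (k - 1)` for all large `k`. -/
theorem result :
    (∀ k : ℕ, 3 ≤ k → ∃ c : Sym2 (Fin (6 * k - 7)) → Fin 3, IsEnabling 3 k c) ∧
    (∀ k : ℕ, 3 ≤ k → nr 3 k ≤ 6 * k - 7 ∧ nr 3 k < 2 * 3 * (k - 1)) ∧
    ¬ ∀ r : ℕ, 2 ≤ r → ∃ k₀ : ℕ, r ≤ k₀ ∧ ∀ k : ℕ, k₀ ≤ k → nr r k = 2 * r * (k - 1) := by
  have h2 : ∀ k : ℕ, 3 ≤ k → nr 3 k ≤ 6 * k - 7 ∧ nr 3 k < 2 * 3 * (k - 1) := by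
    intro k hk
    have : nr 3 k ≤ 6 * k - 7 := Nat.sInf_le ⟨by omega, exists_colouring k hk⟩
    exact ⟨this, by omega⟩
  refine ⟨exists_colouring, h2, ?_⟩
  intro h
  obtain ⟨k₀, hk₀, hk⟩ := h 3 (by norm_num)
  have h3 := hk k₀ le_rfl
  have h4 := (h2 k₀ hk₀).2
  omega

end Pool.Agent.Results.MP_7ae2b6_co.ThreeColours
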